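import Pool.Agent.H42.Luzin

namespace Pool.Agent.Results.MP_a36908_lc.Full

open Cardinal

/-- The first uncountable ordinal, as a well-ordered type. -/
abbrev W1 : Type := (ℵ₁ : Cardinal.{0}).ord.ToType

/-- The principle superclub on `ω₁`. -/
def Superclub : Prop :=
  ∃ S : W1 → Set W1, (∀ α, S α ⊆ Set.Iio α) ∧ ∀ A : Set W1, ¬ A.Countable →
    ∃ B ⊆ A, ¬ B.Countable ∧ IsStationary {α | B ∩ Set.Iio α = S α}

/-- Infinite sets with pairwise finite intersections. -/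
def AlmostDisjoint (A : W1 → Set ℕ) : Prop :=
  (∀ β, (A β).Infinite) ∧ ∀ β γ, β ≠ γ → (A β ∩ A γ).Finite

/-- `B` separates the family. -/
def Separates (B : Set ℕ) (A : W1 → Set ℕ) : Prop :=
  ¬ {β | (A β \ B).Finite}.Countable ∧ ¬ {β | (A β \ Bᶜ).Finite}.Countable

/-- The subfamily indexed by `X` has Luzin's property. -/
def LuzinOn (X : Set W1) (A : W1 → Set ℕ) : Prop :=
  ∀ α ∈ X, ∀ n : ℕ, {β | β ∈ X ∧ β < α ∧ A α ∩ A β ⊆ Set.Iio n}.Finite

theorem result (h : Superclub) : ∃ A : W1 → Set ℕ, AlmostDisjoint A ∧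
    (∀ B : Set ℕ, ¬ Separates B A) ∧ ∀ X : Set W1, ¬ X.Countable → ¬ LuzinOn X A := by
  obtain ⟨S, -, hS⟩ := h
  have hT := Pool.Agent.H42.Reg.regUnc_toType isRegular_aleph_one aleph0_lt_aleph_one
  have hc : ∀ a : W1, (Set.Iic a).Countable := fun a => by
    have := (hT.init_le a).trans_eq ((mk_ord_toType _).trans succ_aleph0.symm)
    exact le_aleph0_iff_set_countable.1 (Order.lt_succ_iff.1 this)
  obtain ⟨A, h1, h2, h3, h4⟩ := Pool.Agent.H42.Luzin.main hT hc S fun A hA => by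
    obtain ⟨B, b1, b2, b3⟩ := hS A hA
    exact ⟨B, b1, b2, Pool.Agent.H42.Stat.stat_of_isStationary hT b3⟩
  refine ⟨A, ⟨h1, h2⟩, fun B hB => (h3 B).elim hB.1 hB.2, fun X hX hL => ?_⟩
  obtain ⟨α, a1, n, a2⟩ := h4 X hX
  exact a2 (hL α a1 n)

end Pool.Agent.Results.MP_a36908_lc.Full
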